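import Pool.Agent.H50Z.Flat.Mod2

namespace Pool.Agent.H50Z.Flat

open Complex Metric

theorem exists_sqrt {f : ℂ → ℂ} (hf : DifferentiableOn ℂ f (ball 0 1))
    (h0 : ∀ z ∈ ball (0 : ℂ) 1, f z ≠ 0) :
    ∃ s : ℂ → ℂ, DifferentiableOn ℂ s (ball 0 1) ∧ ∀ z ∈ ball (0 : ℂ) 1, s z ^ 2 = f z := by
  have h1 : DifferentiableOn ℂ (fun z => deriv f z / f z) (ball 0 1) :=
    (hf.deriv isOpen_ball).div hf h0
  obtain ⟨L, hL0, hL⟩ := h1.isExactOn_ball.with_val_at 0 (log (f 0))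
  have h2 : ∀ z ∈ ball (0 : ℂ) 1, HasDerivAt (fun z => f z * exp (-L z)) 0 z := by
    intro z hz
    have h3 := (hf.differentiableAt (isOpen_ball.mem_nhds hz)).hasDerivAt
    have h4 : HasDerivAt (fun z => f z * exp (-L z))
        (deriv f z * exp (-L z) + f z * (exp (-L z) * -(deriv f z / f z))) z :=
      h3.mul (hL z hz).neg.cexp
    convert h4 using 1
    have := h0 z hz
    field_simp
    ring
  have h5 : ∀ z ∈ ball (0 : ℂ) 1, f z * exp (-L z) = 1 := by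
    intro z hz
    have h6 := isOpen_ball.is_const_of_deriv_eq_zero (convex_ball (0 : ℂ) 1).isPreconnected
      (fun z hz => (h2 z hz).differentiableAt.differentiableWithinAt)
      (fun z hz => (h2 z hz).deriv) hz (mem_ball_self one_pos)
    rw [h6, hL0, exp_neg, exp_log (h0 0 (mem_ball_self one_pos)),
      mul_inv_cancel₀ (h0 0 (mem_ball_self one_pos))]
  refine ⟨fun z => exp (L z / 2), fun z hz =>
    ((hL z hz).differentiableAt.div_const 2).cexp.differentiableWithinAt, fun z hz => ?_⟩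
  have h7 := h5 z hz
  rw [exp_neg, mul_inv_eq_one₀ (exp_ne_zero _)] at h7
  rw [h7, ← exp_nat_mul]
  congr 1
  push_cast
  ring

noncomputable def cay (w : ℂ) : ℂ := I * (1 + w) / (1 - w)

theorem one_sub_ne {w : ℂ} (hw : ‖w‖ < 1) : 1 - w ≠ 0 := by
  intro h
  rw [sub_eq_zero] at h
  rw [← h] at hw
  simp at hw

theorem cay_im {w : ℂ} (hw : ‖w‖ < 1) : (cay w).im = (1 - ‖w‖ ^ 2) / ‖1 - w‖ ^ 2 := by
  have h := one_sub_ne hw
  rw [cay, div_im, ← normSq_eq_norm_sq, ← normSq_eq_norm_sq, normSq_apply w]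
  have : normSq (1 - w) ≠ 0 := by simpa using h
  field_simp
  simp
  ring

theorem cay_pos {w : ℂ} (hw : ‖w‖ < 1) : 0 < (cay w).im := by
  rw [cay_im hw]
  have := norm_pos_iff.2 (one_sub_ne hw)
  have := norm_nonneg w
  exact div_pos (by nlinarith) (by positivity)

theorem cay_surj {z : ℂ} (hz : 0 < z.im) : ∃ u : ℂ, ‖u‖ < 1 ∧ cay (u ^ 2) = z := by
  have h1 : z + I ≠ 0 := by
    intro h
    have := congrArg Complex.im h
    simp at this
    linarith
  obtain ⟨u, hu⟩ := IsAlgClosed.exists_pow_nat_eq ((z - I) / (z + I)) two_pos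
  refine ⟨u, ?_, ?_⟩
  · have h2 : ‖u‖ ^ 2 < 1 := by
      rw [← norm_pow, hu, norm_div, div_lt_one (norm_pos_iff.2 h1), ← sq_lt_sq₀ (norm_nonneg _)
        (norm_nonneg _), ← normSq_eq_norm_sq, ← normSq_eq_norm_sq, normSq_apply, normSq_apply]
      simp
      nlinarith
    nlinarith [norm_nonneg u]
  · rw [hu, cay]
    have h3 : 1 - (z - I) / (z + I) = 2 * I / (z + I) := by field_simp; ring
    rw [h3]
    field_simp
    ring

theorem disc_data : ∃ (x y s : ℂ → ℂ) (C : ℝ), DifferentiableOn ℂ x (ball 0 1) ∧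
    DifferentiableOn ℂ y (ball 0 1) ∧ DifferentiableOn ℂ s (ball 0 1) ∧ 0 < C ∧
    (∀ z ∈ ball (0 : ℂ) 1, s z ^ 2 = x z * y z ∧ x z ≠ 0 ∧ y z ≠ 0 ∧ x z - y z ≠ 0 ∧
      C ≤ (1 - ‖z‖ ^ 2) * (‖x z‖ + ‖y z‖)) ∧
    (∀ z, x (-z) = x z ∧ y (-z) = y z ∧ s (-z) = s z) ∧
    ∀ α β γ : ℂ, (∀ z ∈ ball (0 : ℂ) 1, (α * y z - β * x z) ^ 2 = γ * (x z * y z)) → β = 0 := by
  obtain ⟨c, hc, hlow⟩ := lower
  let x0 : ℂ → ℂ := fun w => X (cay w) / (1 - w) ^ 2
  let y0 : ℂ → ℂ := fun w => Y (cay w) / (1 - w) ^ 2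
  have hcay : ∀ w : ℂ, ‖w‖ < 1 → DifferentiableAt ℂ cay w := fun w hw =>
    DifferentiableAt.div (by fun_prop) (by fun_prop) (one_sub_ne hw)
  have hx0 : DifferentiableOn ℂ x0 (ball 0 1) := fun w hw => by
    have hw' := mem_ball_zero_iff.1 hw
    exact (DifferentiableAt.div (d := fun w => (1 - w) ^ 2) ((X_diffAt (cay_pos hw')).comp w (hcay w hw')) (by fun_prop)
      (pow_ne_zero 2 (one_sub_ne hw'))).differentiableWithinAt
  have hy0 : DifferentiableOn ℂ y0 (ball 0 1) := fun w hw => by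
    have hw' := mem_ball_zero_iff.1 hw
    exact (DifferentiableAt.div (d := fun w => (1 - w) ^ 2) ((Y_diffAt (cay_pos hw')).comp w (hcay w hw')) (by fun_prop)
      (pow_ne_zero 2 (one_sub_ne hw'))).differentiableWithinAt
  have hne : ∀ w ∈ ball (0 : ℂ) 1, x0 w ≠ 0 ∧ y0 w ≠ 0 ∧ x0 w - y0 w ≠ 0 := fun w hw => by
    have hw' := mem_ball_zero_iff.1 hw
    have h1 := XY_ne (cay_pos hw')
    have h2 := pow_ne_zero 2 (one_sub_ne hw')
    exact ⟨div_ne_zero h1.1 h2, div_ne_zero h1.2.1 h2, by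
      simp only [x0, y0]
      rw [← sub_div]
      exact div_ne_zero h1.2.2 h2⟩
  obtain ⟨s0, hs0, hs⟩ := exists_sqrt (hx0.mul hy0)
    fun w hw => mul_ne_zero (hne w hw).1 (hne w hw).2.1
  have hsq : Set.MapsTo (fun z : ℂ => z ^ 2) (ball 0 1) (ball 0 1) := fun z hz => by
    rw [mem_ball_zero_iff] at hz ⊢
    rw [norm_pow]
    nlinarith [norm_nonneg z]
  have hsqd : DifferentiableOn ℂ (fun z : ℂ => z ^ 2) (ball 0 1) := by fun_prop
  refine ⟨fun z => x0 (z ^ 2), fun z => y0 (z ^ 2), fun z => s0 (z ^ 2), c / 2,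
    hx0.comp hsqd hsq, hy0.comp hsqd hsq, hs0.comp hsqd hsq, by positivity, fun z hz => ?_,
    fun z => by simp, fun α β γ h => ?_⟩
  · have h1 := hne _ (hsq hz)
    refine ⟨hs _ (hsq hz), h1.1, h1.2.1, h1.2.2, ?_⟩
    have hw := mem_ball_zero_iff.1 (hsq hz)
    have h2 := hlow _ (cay_pos hw)
    rw [cay_im hw] at h2
    simp only [x0, y0, norm_div, norm_pow] at h2 ⊢
    have hz' := mem_ball_zero_iff.1 hz
    have h3 := norm_pos_iff.2 (one_sub_ne hw)
    set a := ‖X (cay (z ^ 2))‖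
    set b := ‖Y (cay (z ^ 2))‖
    have ha : 0 ≤ a := norm_nonneg _
    have hb : 0 ≤ b := norm_nonneg _
    set d := ‖1 - z ^ 2‖ ^ 2
    have hd : 0 < d := by positivity
    set r := ‖z‖ ^ 2
    have hr0 : 0 ≤ r := by positivity
    have hr1 : r < 1 := by simp only [r]; nlinarith [norm_nonneg z]
    have h4 : (1 - r ^ 2) / d * (a + b) = (1 + r) * ((1 - r) * (a / d + b / d)) := by
      field_simp
      ring
    have h5 : 0 ≤ (1 - r) * (a / d + b / d) := mul_nonneg (by linarith) (by positivity)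
    nlinarith
  · apply nondeg α β γ
    intro τ hτ
    obtain ⟨u, hu, rfl⟩ := cay_surj hτ
    have h1 := h u (mem_ball_zero_iff.2 hu)
    have h2 := one_sub_ne (mem_ball_zero_iff.1 (hsq (mem_ball_zero_iff.2 hu)))
    simp only [x0, y0] at h1
    field_simp at h1
    linear_combination h1

end Pool.Agent.H50Z.Flat
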