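import Pool.Agent.H50Z.Flat.Surf

namespace Pool.Agent.H50Z.Flat

open Metric

theorem main :
    ¬ (∀ (U : Set ℂ) (X : ℂ → Fin 3 → ℝ),
      IsOpen U → IsConnected U → ContDiffOn ℝ 2 X U →
      (∀ z ∈ U, fderiv ℝ X z 1 ≠ 0 ∧
          ∑ i, (fderiv ℝ X z 1 i) ^ 2 = ∑ i, (fderiv ℝ X z Complex.I i) ^ 2 ∧
          ∑ i, fderiv ℝ X z 1 i * fderiv ℝ X z Complex.I i = 0) →
      (∀ k : Fin 3, DifferentiableOn ℂ
          (fun z => ((fderiv ℝ X z 1 k : ℝ) : ℂ) - Complex.I * ((fderiv ℝ X z Complex.I k : ℝ) : ℂ)) U) →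
      (∀ γ : ℝ → ℂ, ContDiffOn ℝ 1 γ (Set.Ico 0 1) → Set.MapsTo γ (Set.Ico 0 1) U →
          (∀ K : Set ℂ, IsCompact K → K ⊆ U → ∀ᶠ t in nhdsWithin (1 : ℝ) (Set.Iio 1), γ t ∉ K) →
          ∫⁻ t in Set.Ioo (0 : ℝ) 1,
            ENNReal.ofReal (Real.sqrt (∑ i, (fderiv ℝ X (γ t) (deriv γ t) i) ^ 2)) = ⊤) →
      ∀ N : ℂ → Fin 3 → ℝ,
        (∀ z ∈ U, N z =
          (Real.sqrt (∑ i, (crossProduct (fderiv ℝ X z 1) (fderiv ℝ X z Complex.I) i) ^ 2))⁻¹ •
            crossProduct (fderiv ℝ X z 1) (fderiv ℝ X z Complex.I)) →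
        (∃ z₁ ∈ U, ∃ z₂ ∈ U, N z₁ ≠ N z₂) →
        (∃ z₀ ∈ U, fderiv ℝ N z₀ = 0) →
        {v : Fin 3 → ℝ | ∑ i, v i ^ 2 = 1 ∧ ∀ z ∈ U, N z ≠ v}.encard ≤ 3) := by
  intro H
  obtain ⟨x, y, s, C, hx, hy, hs, hC, hz, heven, hnd⟩ := disc_data
  let φ : ℂ → Fin 3 → ℂ := fun z => ![y z - x z, Complex.I * (y z + x z), 2 * s z]
  have hφ : ∀ k, DifferentiableOn ℂ (fun z => φ z k) (ball 0 1) := by
    intro k
    fin_cases k
    · exact hy.sub hx
    · exact (hy.add hx).const_mul _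
    · exact hs.const_mul _
  have hF : ∀ k, ∃ F : ℂ → ℂ, ∀ z ∈ ball (0 : ℂ) 1, HasDerivAt F (φ z k) z :=
    fun k => (hφ k).isExactOn_ball
  choose F hF using hF
  let X : ℂ → Fin 3 → ℝ := fun z k => (F k z).re
  have hfd : ∀ z ∈ ball (0 : ℂ) 1, ∀ v : ℂ, fderiv ℝ X z v = fun k => (φ z k * v).re := by
    intro z hz v
    have h1 : HasFDerivAt X (ContinuousLinearMap.pi fun k => Complex.reCLM.comp
        ((ContinuousLinearMap.toSpanSingleton ℂ (φ z k)).restrictScalars ℝ)) z :=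
      hasFDerivAt_pi.2 fun k => Complex.reCLM.hasFDerivAt.comp z
        ((hF k z hz).hasFDerivAt.restrictScalars ℝ)
    rw [h1.fderiv]
    funext k
    simp [mul_comm]
  have hsq : ∀ z ∈ ball (0 : ℂ) 1, ∀ v : ℂ,
      ∑ i, (fderiv ℝ X z v i) ^ 2 = ((‖x z‖ + ‖y z‖) * ‖v‖) ^ 2 := by
    intro z hz' v
    rw [hfd z hz']
    exact sum_sq _ _ _ v (hz z hz').1
  have horth : ∀ z ∈ ball (0 : ℂ) 1,
      ∑ i, fderiv ℝ X z 1 i * fderiv ℝ X z Complex.I i = 0 := by
    intro z hz'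
    rw [hfd z hz', hfd z hz']
    exact sum_orth _ _ _ (hz z hz').1
  have hlam : ∀ z ∈ ball (0 : ℂ) 1, 0 < ‖x z‖ + ‖y z‖ := fun z hz' => by
    have := norm_pos_iff.2 (hz z hz').2.1
    positivity
  let N : ℂ → Fin 3 → ℝ := fun z =>
    (Real.sqrt (∑ i, (crossProduct (fderiv ℝ X z 1) (fderiv ℝ X z Complex.I) i) ^ 2))⁻¹ •
      crossProduct (fderiv ℝ X z 1) (fderiv ℝ X z Complex.I)
  have hNo : ∀ z ∈ ball (0 : ℂ) 1, ∑ i : Fin 3, (N z i : ℂ) * φ z i = 0 := by
    intro z hz'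
    simp only [N]
    rw [hfd z hz', hfd z hz']
    exact orth_cross _ _
  have hN1 : ∀ z ∈ ball (0 : ℂ) 1, ∑ i : Fin 3, N z i ^ 2 = 1 := by
    intro z hz'
    have h1 : 0 < ∑ i, (crossProduct (fderiv ℝ X z 1) (fderiv ℝ X z Complex.I) i) ^ 2 := by
      rw [cross_sq, hsq z hz', hsq z hz', horth z hz']
      have := hlam z hz'
      simp only [norm_one, Complex.norm_I]
      have h2 : 0 < ((‖x z‖ + ‖y z‖) * 1) ^ 2 * ((‖x z‖ + ‖y z‖) * 1) ^ 2 := by positivity
      linarith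
    simp only [N, Pi.smul_apply, smul_eq_mul, mul_pow]
    rw [← Finset.mul_sum, inv_pow, Real.sq_sqrt h1.le, inv_mul_cancel₀ h1.ne']
  have h0 : (0 : ℂ) ∈ ball (0 : ℂ) 1 := mem_ball_self one_pos
  have key := H (ball 0 1) X isOpen_ball (convex_ball (0 : ℂ) 1 |>.isConnected ⟨0, h0⟩)
    (contDiffOn_pi.2 fun k => Complex.reCLM.contDiff.comp_contDiffOn
      ((DifferentiableOn.contDiffOn (fun z hz => (hF k z hz).differentiableAt.differentiableWithinAt)
        isOpen_ball).restrict_scalars ℝ))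
    (fun z hz' => ⟨by
      intro h1
      have h2 := hsq z hz' 1
      have h3 := hlam z hz'
      rw [h1] at h2
      simp at h2
      nlinarith, by rw [hsq z hz', hsq z hz']; simp, horth z hz'⟩)
    (fun k => (hφ k).congr fun z hz' => by
      rw [hfd z hz', hfd z hz']
      apply Complex.ext <;> simp)
    (fun γ h1 h2 h3 => complete_aux hC _ γ h1 h2 h3 fun t ht => by
      have ht' := h2 (Set.Ioo_subset_Ico_self ht)
      rw [hsq _ ht', Real.sqrt_sq (by positivity), ← mul_assoc]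
      exact mul_le_mul_of_nonneg_right (hz _ ht').2.2.2.2 (norm_nonneg _))
    N (fun z _ => rfl) (by
      by_contra hcon
      push Not at hcon
      have h1 : ∀ z ∈ ball (0 : ℂ) 1, ((N 0 0 + Complex.I * N 0 1) * y z -
          (N 0 0 - Complex.I * N 0 1) * x z) ^ 2 = (4 * (N 0 2 : ℂ) ^ 2) * (x z * y z) := by
        intro z hz'
        have h2 := hNo z hz'
        rw [hcon z hz' 0 h0] at h2
        simp only [Fin.sum_univ_three, φ] at h2
        simp at h2
        rw [← (hz z hz').1]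
        have h3 : (N 0 0 + Complex.I * N 0 1) * y z - (N 0 0 - Complex.I * N 0 1) * x z =
          -(N 0 2 * (2 * s z)) := by linear_combination h2
        rw [h3]
        ring
      have h2 := hnd _ _ _ h1
      have h3 : N 0 0 = 0 := by simpa using congrArg Complex.re h2
      have h4 : N 0 1 = 0 := by simpa using congrArg Complex.im h2
      have h5 := h1 0 h0
      have h6 := hN1 0 h0
      rw [h3, h4] at h5
      simp [(hz 0 h0).2.1, (hz 0 h0).2.2.1] at h5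
      simp [Fin.sum_univ_three, h3, h4, h5] at h6)
    ⟨0, h0, by
      have h1 : N =ᶠ[nhds 0] fun z => N (-z) := by
        filter_upwards [isOpen_ball.mem_nhds h0] with z hz'
        have hz'' : -z ∈ ball (0 : ℂ) 1 := by simpa using hz'
        have h2 : φ (-z) = φ z := by simp only [φ, heven z]
        simp only [N]
        rw [hfd z hz', hfd z hz', hfd _ hz'', hfd _ hz'', h2]
      by_cases hd : DifferentiableAt ℝ N 0
      · have h2 : HasFDerivAt (fun z => N (-z))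
            ((fderiv ℝ N 0).comp (-ContinuousLinearMap.id ℝ ℂ)) 0 := by
          have h3 : HasFDerivAt N (fderiv ℝ N 0) (-0) := by rw [neg_zero]; exact hd.hasFDerivAt
          exact h3.comp 0 (hasFDerivAt_id (0 : ℂ)).neg
        have h3 := h1.fderiv_eq.trans h2.fderiv
        ext v k
        have h4 := congrArg (fun L : ℂ →L[ℝ] (Fin 3 → ℝ) => L v k) h3
        simp at h4 ⊢
        linarith
      · exact fderiv_zero_of_not_differentiableAt hd⟩
  let w : Fin 4 → Fin 3 → ℝ := ![![1, 0, 0], ![-1, 0, 0], ![0, 0, 1], ![0, 0, -1]]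
  have hw : Function.Injective w := by
    intro i j h
    have h1 := congrFun h 0
    have h2 := congrFun h 2
    fin_cases i <;> fin_cases j <;> simp [w] at h1 h2 ⊢ <;> linarith
  have hsub : Set.range w ⊆ {v : Fin 3 → ℝ | ∑ i, v i ^ 2 = 1 ∧ ∀ z ∈ ball (0 : ℂ) 1, N z ≠ v} := by
    rintro _ ⟨i, rfl⟩
    refine ⟨by fin_cases i <;> simp [w, Fin.sum_univ_three], fun z hz' h => ?_⟩
    have h1 := hNo z hz'
    obtain ⟨h2, h3, h4, h5, -⟩ := hz z hz'
    have h6 : s z ≠ 0 := fun h7 => by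
      rw [h7] at h2
      exact mul_ne_zero h3 h4 (by simpa using h2.symm)
    have h7 : y z - x z ≠ 0 := fun h8 => h5 (by linear_combination -h8)
    rw [h] at h1
    fin_cases i <;> simp [w, φ, Fin.sum_univ_three, h5, h6, h7] at h1
  have h1 := hw.encard_range.trans ((Set.encard_le_encard hsub).trans key)
  simp at h1
  exact absurd h1 (by decide)

end Pool.Agent.H50Z.Flat
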