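import Mathlib

/-!
Weight two forms of level two built from the Eisenstein series of weight two.
-/

namespace Pool.Agent.H50Z.Flat

open UpperHalfPlane hiding I
open Complex EisensteinSeries Filter Topology MatrixGroups ModularForm

noncomputable def E (z : ℂ) : ℂ := E2 (ofComplex z)

noncomputable def kap : ℂ := -(1 / (2 * riemannZeta 2) * (2 * Real.pi * I))

theorem E_coe (τ : ℍ) : E τ = E2 τ := by simp [E, ofComplex_apply]

theorem E_diff : DifferentiableOn ℂ E {z : ℂ | 0 < z.im} :=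
  mdifferentiable_iff.1 E2_mdifferentiable

theorem E_diffAt {z : ℂ} (hz : 0 < z.im) : DifferentiableAt ℂ E z :=
  E_diff.differentiableAt ((isOpen_lt continuous_const Complex.continuous_im).mem_nhds hz)

theorem E_moeb (a b c d : ℤ) (h : a * d - b * c = 1) {z : ℂ} (hz : 0 < z.im) :
    E ((a * z + b) / (c * z + d)) = (c * z + d) ^ 2 * E z + kap * c * (c * z + d) := by
  let γ : SL(2, ℤ) := ⟨!![a, b; c, d], by simp [Matrix.det_fin_two, h]⟩
  let τ : ℍ := ⟨z, hz⟩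
  have h1 := congrFun (E2_slash_action γ) τ
  have hd : denom γ τ = c * z + d := by
    rw [ModularGroup.denom_apply]; simp [γ, τ]
  have hd0 : (c * z + d : ℂ) ≠ 0 := hd ▸ denom_ne_zero γ τ
  have h2 : ((γ • τ : ℍ) : ℂ) = (a * z + b) / (c * z + d) := by
    rw [coe_specialLinearGroup_apply]; simp [γ, τ]
  have h3 : E z = E2 τ := E_coe τ
  rw [← h2, E_coe, h3]
  rw [SL_slash_apply, hd] at h1
  simp only [Pi.sub_apply, Pi.smul_apply, D2, smul_eq_mul, hd] at h1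
  have h4 : (γ 1 0 : ℤ) = c := rfl
  rw [h4] at h1
  have h5 : E2 (γ • τ) = (E2 (γ • τ) * (c * z + d : ℂ) ^ (-2 : ℤ)) * (c * z + d) ^ 2 := by
    rw [zpow_neg, mul_assoc, zpow_ofNat, inv_mul_cancel₀ (pow_ne_zero 2 hd0), mul_one]
  rw [h5, h1, kap]
  field_simp
  ring

theorem E2_tendsto : Tendsto E2 atImInfty (𝓝 1) := by
  set c : ℕ → ℂ := fun m => (if m = 0 then 1 else -24 * ArithmeticFunction.sigma 1 m : ℂ) with hc
  have hf : ∀ τ : ℍ, HasSum (fun m : ℕ ↦ c m • Function.Periodic.qParam 1 τ ^ m) (E2 τ) :=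
    fun τ => by
    simpa only [Function.Periodic.qParam, ofReal_one, div_one] using hasSum_qExpansion_E2 (z := τ)
  have h1 : Summable fun m : ℕ => ‖c m • Function.Periodic.qParam 1 (UpperHalfPlane.I : ℍ) ^ m‖ :=
    (hf UpperHalfPlane.I).summable.norm
  have h2 := tendsto_tsum_of_dominated_convergence (𝓕 := atImInfty)
    (f := fun (τ : ℍ) (m : ℕ) => c m • Function.Periodic.qParam 1 τ ^ m)
    (g := fun m : ℕ => c m • (0 : ℂ) ^ m) h1
    (fun m => ((qParam_tendsto_atImInfty one_pos).pow m).const_smul (c m)) (by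
      rw [Filter.Eventually, atImInfty_mem]
      refine ⟨1, fun z hz m => ?_⟩
      simp only [norm_smul, norm_pow, Function.Periodic.norm_qParam]
      have h4 : -2 * Real.pi * (z : ℂ).im / 1 ≤ -2 * Real.pi * ((UpperHalfPlane.I : ℍ) : ℂ).im / 1 := by
        simp only [coe_I, Complex.I_im, coe_im, div_one]
        nlinarith [Real.pi_pos]
      exact mul_le_mul_of_nonneg_left (pow_le_pow_left₀ (Real.exp_pos _).le
        (Real.exp_le_exp.2 h4) m) (norm_nonneg _))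
  have h3 : ∑' m : ℕ, c m • (0 : ℂ) ^ m = 1 := by
    rw [tsum_eq_single 0 (fun m hm => by simp [hm])]
    simp [hc]
  rw [h3] at h2
  exact h2.congr fun τ => (hf τ).tsum_eq

theorem E_tendsto {f : ℂ → ℂ} (a : ℝ) (ha : 0 < a) (hf : ∀ z : ℂ, (f z).im = a * z.im) :
    Tendsto (fun τ : ℍ => E (f τ)) atImInfty (𝓝 1) := by
  apply E2_tendsto.comp
  rw [atImInfty_basis.tendsto_iff atImInfty_basis]
  intro A _
  refine ⟨A / a, trivial, fun τ hτ => ?_⟩
  have h1 : 0 < (f τ).im := by rw [hf]; exact mul_pos ha τ.im_pos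
  simp only [Set.mem_preimage, Set.mem_Ici] at hτ ⊢
  rw [ofComplex_apply_of_im_pos h1]
  show A ≤ (f τ).im
  rw [hf, ← div_le_iff₀' ha]
  exact hτ

noncomputable def F1 (z : ℂ) : ℂ := 2 * E (2 * z)
noncomputable def F2 (z : ℂ) : ℂ := E (z / 2) / 2
noncomputable def F3 (z : ℂ) : ℂ := E ((z + 1) / 2) / 2

theorem im1 {z : ℂ} (hz : 0 < z.im) : 0 < (2 * z).im := by simpa using hz
theorem im2 {z : ℂ} (hz : 0 < z.im) : 0 < (z / 2).im := by simpa using hz
theorem im3 {z : ℂ} (hz : 0 < z.im) : 0 < ((z + 1) / 2).im := by simpa using hz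

theorem ne0 {z : ℂ} (hz : 0 < z.im) : z ≠ 0 := by
  rintro rfl; simp at hz

theorem F1_T {z : ℂ} (hz : 0 < z.im) : F1 (z + 1) = F1 z := by
  have := E_moeb 1 2 0 1 (by norm_num) (im1 hz)
  simp only [F1]
  rw [show 2 * (z + 1) = (((1 : ℤ) : ℂ) * (2 * z) + (2 : ℤ)) / (((0 : ℤ) : ℂ) * (2 * z) + (1 : ℤ)) by
    push_cast; ring, this]
  simp

theorem F2_T (z : ℂ) : F2 (z + 1) = F3 z := rfl

theorem F3_T {z : ℂ} (hz : 0 < z.im) : F3 (z + 1) = F2 z := by
  have := E_moeb 1 1 0 1 (by norm_num) (im2 hz)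
  simp only [F2, F3]
  rw [show (z + 1 + 1) / 2 = (((1 : ℤ) : ℂ) * (z / 2) + (1 : ℤ)) / (((0 : ℤ) : ℂ) * (z / 2) + (1 : ℤ)) by
    push_cast; ring, this]
  simp

theorem F1_S {z : ℂ} (hz : 0 < z.im) : F1 (-z)⁻¹ = z ^ 2 * F2 z + kap * z := by
  have := E_moeb 0 (-1) 1 0 (by norm_num) (im2 hz)
  have h0 := ne0 hz
  simp only [F1, F2]
  rw [show 2 * (-z)⁻¹ = (((0 : ℤ) : ℂ) * (z / 2) + (-1 : ℤ)) / (((1 : ℤ) : ℂ) * (z / 2) + (0 : ℤ)) by
    push_cast; simp only [zero_mul, zero_add, one_mul, add_zero]; field_simp, this]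
  push_cast; ring

theorem F2_S {z : ℂ} (hz : 0 < z.im) : F2 (-z)⁻¹ = z ^ 2 * F1 z + kap * z := by
  have := E_moeb 0 (-1) 1 0 (by norm_num) (im1 hz)
  have h0 := ne0 hz
  simp only [F1, F2]
  rw [show (-z)⁻¹ / 2 = (((0 : ℤ) : ℂ) * (2 * z) + (-1 : ℤ)) / (((1 : ℤ) : ℂ) * (2 * z) + (0 : ℤ)) by
    push_cast; field_simp; ring, this]
  push_cast; ring

theorem F3_S {z : ℂ} (hz : 0 < z.im) : F3 (-z)⁻¹ = z ^ 2 * F3 z + kap * z := by
  have := E_moeb 1 (-1) 2 (-1) (by norm_num) (im3 hz)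
  have h0 := ne0 hz
  simp only [F3]
  have e : (((2 : ℤ) : ℂ) * ((z + 1) / 2) + (-1 : ℤ)) = z := by push_cast; ring
  rw [e] at this
  rw [show ((-z)⁻¹ + 1) / 2 = (((1 : ℤ) : ℂ) * ((z + 1) / 2) + (-1 : ℤ)) / z by
    push_cast; field_simp; ring, this]
  push_cast; ring

noncomputable def X (z : ℂ) : ℂ := F1 z - F2 z
noncomputable def Y (z : ℂ) : ℂ := F1 z - F3 z

theorem X_T {z : ℂ} (hz : 0 < z.im) : X (z + 1) = Y z := by rw [X, Y, F1_T hz, F2_T]
theorem Y_T {z : ℂ} (hz : 0 < z.im) : Y (z + 1) = X z := by rw [X, Y, F1_T hz, F3_T hz]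
theorem X_S {z : ℂ} (hz : 0 < z.im) : X (-z)⁻¹ = -z ^ 2 * X z := by
  rw [X, X, F1_S hz, F2_S hz]; ring
theorem Y_S {z : ℂ} (hz : 0 < z.im) : Y (-z)⁻¹ = -z ^ 2 * (X z - Y z) := by
  rw [X, Y, Y, F1_S hz, F3_S hz]; ring

theorem X_diffAt {z : ℂ} (hz : 0 < z.im) : DifferentiableAt ℂ X z := by
  have h1 : DifferentiableAt ℂ (fun z => E (2 * z)) z := 
    DifferentiableAt.comp (g := E) (f := fun z => 2 * z) z (E_diffAt (im1 hz)) (by fun_prop)
  have h2 : DifferentiableAt ℂ (fun z => E (z / 2)) z := 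
    DifferentiableAt.comp (g := E) (f := fun z => z / 2) z (E_diffAt (im2 hz)) (by fun_prop)
  exact (h1.const_mul 2).sub (h2.div_const 2)

theorem Y_diffAt {z : ℂ} (hz : 0 < z.im) : DifferentiableAt ℂ Y z := by
  have h1 : DifferentiableAt ℂ (fun z => E (2 * z)) z := 
    DifferentiableAt.comp (g := E) (f := fun z => 2 * z) z (E_diffAt (im1 hz)) (by fun_prop)
  have h2 : DifferentiableAt ℂ (fun z => E ((z + 1) / 2)) z :=
    DifferentiableAt.comp (g := E) (f := fun z => (z + 1) / 2) z (E_diffAt (im3 hz)) (by fun_prop)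
  exact (h1.const_mul 2).sub (h2.div_const 2)

theorem X_tendsto : Tendsto (fun τ : ℍ => X τ) atImInfty (𝓝 (3 / 2)) := by
  have h1 := E_tendsto (f := fun z => 2 * z) 2 two_pos (by simp)
  have h2 := E_tendsto (f := fun z => z / 2) (1 / 2) (by norm_num) (by intro z; simp; ring)
  have := (h1.const_mul 2).sub (h2.div_const 2)
  norm_num at this
  exact this

theorem Y_tendsto : Tendsto (fun τ : ℍ => Y τ) atImInfty (𝓝 (3 / 2)) := by
  have h1 := E_tendsto (f := fun z => 2 * z) 2 two_pos (by simp)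
  have h2 := E_tendsto (f := fun z => (z + 1) / 2) (1 / 2) (by norm_num) (by intro z; simp; ring)
  have := (h1.const_mul 2).sub (h2.div_const 2)
  norm_num at this
  exact this

end Pool.Agent.H50Z.Flat
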