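import Pool.Agent.H50Z.Flat.Mod

namespace Pool.Agent.H50Z.Flat

open UpperHalfPlane hiding I
open Complex Filter Topology MatrixGroups ModularForm Manifold

theorem coe_S (τ : ℍ) : ((ModularGroup.S • τ : ℍ) : ℂ) = (-(τ : ℂ))⁻¹ := by
  rw [modular_S_smul]

theorem coe_T (τ : ℍ) : ((ModularGroup.T • τ : ℍ) : ℂ) = τ + 1 := by
  rw [modular_T_smul, coe_vadd, add_comm]; simp

theorem mdiff {f : ℂ → ℂ} (hf : ∀ z : ℂ, 0 < z.im → DifferentiableAt ℂ f z) :
    MDifferentiable 𝓘(ℂ) 𝓘(ℂ) (fun τ : ℍ => f τ) := by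
  rw [mdifferentiable_iff]
  refine DifferentiableOn.congr (fun z hz => (hf z hz).differentiableWithinAt) fun z hz => ?_
  simp [ofComplex_apply_of_im_pos hz]

noncomputable def Phi (τ : ℍ) : ℂ := (X τ * Y τ * (X τ - Y τ)) ^ 2

theorem Phi_S : Phi ∣[(12 : ℤ)] ModularGroup.S = Phi := by
  ext τ
  rw [SL_slash_apply, ModularGroup.denom_S, Phi, Phi, coe_S, X_S τ.im_pos, Y_S τ.im_pos]
  have := τ.ne_zero
  rw [zpow_neg, zpow_ofNat]
  field_simp
  ring

theorem Phi_T : Phi ∣[(12 : ℤ)] ModularGroup.T = Phi := by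
  ext τ
  rw [SL_slash_apply, ModularGroup.denom_apply, Phi, Phi, coe_T, X_T τ.im_pos, Y_T τ.im_pos]
  simp [ModularGroup.T]
  ring

theorem Phi_zero : IsZeroAtImInfty Phi := by
  have := ((X_tendsto.mul Y_tendsto).mul (X_tendsto.sub Y_tendsto)).pow 2
  simp only [sub_self, mul_zero, ne_eq, OfNat.ofNat_ne_zero, not_false_eq_true, zero_pow] at this
  exact this

noncomputable def PhiC : CuspForm 𝒮ℒ 12 where
  toFun := Phi
  slash_action_eq' A hA := by
    obtain ⟨A, rfl⟩ := hA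
    exact SlashInvariantForm.slash_action_generators_SL2Z Phi_S Phi_T A
  holo' := mdiff (f := fun z => (X z * Y z * (X z - Y z)) ^ 2) fun z hz =>
    (((X_diffAt hz).mul (Y_diffAt hz)).mul ((X_diffAt hz).sub (Y_diffAt hz))).pow 2
  zero_at_cusps' hc := by
    rw [Subgroup.IsArithmetic.isCusp_iff_isCusp_SL2Z] at hc
    rw [OnePoint.isZeroAt_iff_forall_SL2Z hc]
    intro γ _
    rw [SlashInvariantForm.slash_action_generators_SL2Z Phi_S Phi_T]
    exact Phi_zero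

theorem ne_zero_of_tendsto {f : ℍ → ℂ} (h : Tendsto f atImInfty (𝓝 (3 / 2))) : f ≠ 0 := by
  rintro rfl
  have : (3 / 2 : ℂ) = 0 := tendsto_nhds_unique h tendsto_const_nhds
  norm_num at this

theorem Phi_ne (τ : ℍ) : Phi τ ≠ 0 := by
  obtain ⟨c, hc⟩ := CuspForm.exists_smul_discriminant_of_weight_eq_twelve PhiC
  have h1 : ∀ τ : ℍ, Phi τ = c * ModularForm.discriminant τ := fun τ => by
    have := congrArg (fun f : CuspForm 𝒮ℒ 12 => f τ) hc
    exact this.symm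
  rw [h1]
  refine mul_ne_zero ?_ (discriminant_ne_zero τ)
  rintro rfl
  have hX := mdiff (f := X) fun z hz => X_diffAt hz
  have hY := mdiff (f := Y) fun z hz => Y_diffAt hz
  have hZ := mdiff (f := fun z => X z - Y z) fun z hz => (X_diffAt hz).sub (Y_diffAt hz)
  have h2 : (fun τ : ℍ => X τ) * (fun τ : ℍ => Y τ) * (fun τ : ℍ => X τ - Y τ) = 0 := by
    funext τ
    have := h1 τ
    rw [zero_mul, Phi] at this
    exact pow_eq_zero_iff two_ne_zero |>.1 this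
  rcases (UpperHalfPlane.mul_eq_zero_iff (hX.mul hY) hZ).1 h2 with h | h
  · rcases (UpperHalfPlane.mul_eq_zero_iff hX hY).1 h with h | h
    · exact ne_zero_of_tendsto X_tendsto h
    · exact ne_zero_of_tendsto Y_tendsto h
  · apply ne_zero_of_tendsto Y_tendsto
    funext τ
    have h3 := congrFun h (ModularGroup.S • τ)
    simp only [Pi.zero_apply, coe_S, X_S τ.im_pos, Y_S τ.im_pos] at h3
    have h4 : (τ : ℂ) ^ 2 * Y τ = 0 := by linear_combination -h3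
    exact (mul_eq_zero.1 h4).resolve_left (pow_ne_zero 2 τ.ne_zero)

theorem XY_ne {z : ℂ} (hz : 0 < z.im) : X z ≠ 0 ∧ Y z ≠ 0 ∧ X z - Y z ≠ 0 := by
  have := Phi_ne ⟨z, hz⟩
  simp only [Phi, ne_eq, OfNat.ofNat_ne_zero, not_false_eq_true, pow_eq_zero_iff, mul_eq_zero,
    not_or] at this
  exact ⟨this.1.1, this.1.2, this.2⟩

noncomputable def Gs (τ : ℍ) : ℝ := τ.im * (‖X τ‖ + ‖Y τ‖ + ‖X τ - Y τ‖)

theorem Gs_S (τ : ℍ) : Gs (ModularGroup.S • τ) = Gs τ := by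
  rw [Gs, Gs, ModularGroup.im_smul_eq_div_normSq, ModularGroup.denom_S, coe_S, X_S τ.im_pos,
    Y_S τ.im_pos]
  have h1 : -(τ : ℂ) ^ 2 * X τ - -(τ : ℂ) ^ 2 * (X τ - Y τ) = -(τ : ℂ) ^ 2 * Y τ := by ring
  have h2 : ‖(τ : ℂ)‖ ≠ 0 := norm_ne_zero_iff.2 τ.ne_zero
  rw [h1, Complex.normSq_eq_norm_sq]
  simp only [norm_mul, norm_neg, norm_pow]
  field_simp
  ring

theorem Gs_T (τ : ℍ) : Gs (ModularGroup.T • τ) = Gs τ := by
  have h1 : (ModularGroup.T • τ).im = τ.im := by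
    rw [← coe_im, coe_T]; simp
  rw [Gs, Gs, h1, coe_T, X_T τ.im_pos, Y_T τ.im_pos, norm_sub_rev]
  ring

theorem Gs_inv (γ : SL(2, ℤ)) (τ : ℍ) : Gs (γ • τ) = Gs τ := by
  have : γ ∈ Subgroup.closure {ModularGroup.S, ModularGroup.T} := by
    simp [SpecialLinearGroup.SL2Z_generators]
  induction this using Subgroup.closure_induction generalizing τ with
  | one => simp
  | mem g hg =>
    rcases hg with rfl | rfl
    · exact Gs_S τ
    · exact Gs_T τ
  | mul g h _ _ ig ih => rw [mul_smul, ig, ih]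
  | inv g _ ig => rw [← ig, smul_inv_smul]

theorem Gs_cont : Continuous Gs := by
  have hX := (mdiff (f := X) fun z hz => X_diffAt hz).continuous
  have hY := (mdiff (f := Y) fun z hz => Y_diffAt hz).continuous
  exact UpperHalfPlane.continuous_im.mul ((hX.norm.add hY.norm).add (hX.sub hY).norm)

theorem Gs_pos (τ : ℍ) : 0 < Gs τ := by
  have := norm_pos_iff.2 (XY_ne τ.im_pos).1
  exact mul_pos τ.im_pos (by positivity)

theorem lower : ∃ c : ℝ, 0 < c ∧ ∀ z : ℂ, 0 < z.im → c ≤ z.im * (‖X z‖ + ‖Y z‖) := by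
  have h1 : ∀ᶠ τ : ℍ in atImInfty, 1 < ‖X τ‖ :=
    X_tendsto.norm.eventually (lt_mem_nhds (by norm_num))
  obtain ⟨A, hA⟩ := (atImInfty_mem _).1 h1
  obtain ⟨c, hc, hc'⟩ : ∃ c : ℝ, 0 < c ∧
      ∀ τ ∈ ModularGroup.truncatedFundamentalDomain (max A 1), c ≤ Gs τ := by
    by_cases hne : (ModularGroup.truncatedFundamentalDomain (max A 1)).Nonempty
    · obtain ⟨τ, -, hτ⟩ := (ModularGroup.isCompact_truncatedFundamentalDomain
        (max A 1)).exists_isMinOn hne Gs_cont.continuousOn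
      exact ⟨Gs τ, Gs_pos τ, fun σ hσ => hτ hσ⟩
    · exact ⟨1, one_pos, fun τ hτ => (hne ⟨τ, hτ⟩).elim⟩
  have h2 : ∀ τ : ℍ, min c 1 ≤ Gs τ := by
    intro τ
    obtain ⟨γ, hγ⟩ := ModularGroup.exists_smul_mem_fd τ
    rw [← Gs_inv γ τ]
    by_cases h : (γ • τ).im ≤ max A 1
    · exact (min_le_left _ _).trans (hc' _ ⟨hγ, h⟩)
    · push Not at h
      have h3 : 1 < ‖X (γ • τ : ℍ)‖ := hA _ ((le_max_left _ _).trans h.le)
      have h4 : 1 < (γ • τ).im := (le_max_right _ _).trans_lt h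
      refine (min_le_right _ _).trans ?_
      have h5 := norm_nonneg (Y (γ • τ : ℍ))
      have h6 := norm_nonneg (X (γ • τ : ℍ) - Y (γ • τ : ℍ))
      rw [Gs]
      nlinarith
  refine ⟨min c 1 / 2, by positivity, fun z hz => ?_⟩
  have h3 := h2 ⟨z, hz⟩
  have h4 : Gs ⟨z, hz⟩ = z.im * (‖X z‖ + ‖Y z‖ + ‖X z - Y z‖) := rfl
  have h5 := norm_sub_le (X z) (Y z)
  nlinarith

theorem nondeg (α β γ : ℂ)
    (h : ∀ z : ℂ, 0 < z.im → (α * Y z - β * X z) ^ 2 = γ * (X z * Y z)) : β = 0 := by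
  have h1 : ∀ τ : ℍ, (α * (X τ - Y τ) - β * X τ) ^ 2 - γ * (X τ * (X τ - Y τ)) = 0 := by
    intro τ
    have h2 := h _ (ModularGroup.S • τ).im_pos
    rw [coe_S, X_S τ.im_pos, Y_S τ.im_pos] at h2
    have h3 : (τ : ℂ) ^ 4 * ((α * (X τ - Y τ) - β * X τ) ^ 2 - γ * (X τ * (X τ - Y τ))) = 0 := by
      linear_combination h2
    exact (mul_eq_zero.1 h3).resolve_left (pow_ne_zero 4 τ.ne_zero)
  have h4 := ((((X_tendsto.sub Y_tendsto).const_mul α).sub (X_tendsto.const_mul β)).pow 2).sub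
    ((X_tendsto.mul (X_tendsto.sub Y_tendsto)).const_mul γ)
  simp only [h1] at h4
  have h5 := tendsto_nhds_unique h4 tendsto_const_nhds
  simpa using h5

end Pool.Agent.H50Z.Flat
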