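import Pool.Agent.H50Z.Flat.Disc

namespace Pool.Agent.H50Z.Flat

open Complex Metric MeasureTheory Set Filter Topology

theorem complete_aux {C : ℝ} (hC : 0 < C) (ρ : ℝ → ℝ) (γ : ℝ → ℂ)
    (h1 : ContDiffOn ℝ 1 γ (Ico 0 1)) (h2 : MapsTo γ (Ico 0 1) (ball 0 1))
    (h3 : ∀ K : Set ℂ, IsCompact K → K ⊆ ball 0 1 →
      ∀ᶠ t in nhdsWithin (1 : ℝ) (Iio 1), γ t ∉ K)
    (h4 : ∀ t ∈ Ioo (0 : ℝ) 1, C * ‖deriv γ t‖ ≤ (1 - ‖γ t‖ ^ 2) * ρ t) :
    ∫⁻ t in Ioo (0 : ℝ) 1, ENNReal.ofReal (ρ t) = ⊤ := by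
  by_contra hfin
  set J := (∫⁻ t in Ioo (0 : ℝ) 1, ENNReal.ofReal (ρ t)).toReal with hJ
  have hJ0 : 0 ≤ J := ENNReal.toReal_nonneg
  have h1' : ContDiffOn ℝ 1 γ (Ioo 0 1) := h1.mono Ioo_subset_Ico_self
  have hd : ∀ t ∈ Ioo (0 : ℝ) 1, HasDerivAt γ (deriv γ t) t := fun t ht =>
    ((h1'.differentiableOn one_ne_zero).differentiableAt (isOpen_Ioo.mem_nhds ht)).hasDerivAt
  have hdc : ContinuousOn (deriv γ) (Ioo 0 1) := h1'.continuousOn_deriv_of_isOpen isOpen_Ioo le_rfl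
  have hγc : ContinuousOn γ (Ioo 0 1) := h1'.continuousOn
  have hpos : ∀ t ∈ Ioo (0 : ℝ) 1, 0 < 1 - ‖γ t‖ ^ 2 := fun t ht => by
    have := mem_ball_zero_iff.1 (h2 (Ioo_subset_Ico_self ht))
    nlinarith [norm_nonneg (γ t)]
  let u : ℝ → ℝ := fun t => -Real.log (1 - ‖γ t‖ ^ 2)
  let u' : ℝ → ℝ := fun t => 2 * inner ℝ (γ t) (deriv γ t) / (1 - ‖γ t‖ ^ 2)
  have hu : ∀ t ∈ Ioo (0 : ℝ) 1, HasDerivAt u (u' t) t := fun t ht => by
    have h5 : HasDerivAt u (-(-(2 * inner ℝ (γ t) (deriv γ t)) / (1 - ‖γ t‖ ^ 2))) t :=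
      (((hd t ht).norm_sq.const_sub 1).log (hpos t ht).ne').neg
    convert h5 using 1
    simp only [u']
    ring
  have hu'c : ContinuousOn u' (Ioo 0 1) :=
    (continuousOn_const.mul (ContinuousOn.inner (𝕜 := ℝ) hγc hdc)).div (continuousOn_const.sub (hγc.norm.pow 2))
      fun t ht => (hpos t ht).ne'
  have hbound : ∀ t ∈ Ioo (0 : ℝ) 1, C / 2 * |u' t| ≤ ρ t := fun t ht => by
    have h5 := h4 t ht
    have h6 := hpos t ht
    have h7 := abs_real_inner_le_norm (γ t) (deriv γ t)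
    have h8 := mem_ball_zero_iff.1 (h2 (Ioo_subset_Ico_self ht))
    have h9 : ‖γ t‖ * ‖deriv γ t‖ ≤ ‖deriv γ t‖ :=
      mul_le_of_le_one_left (norm_nonneg _) h8.le
    simp only [u', abs_div, abs_mul, abs_of_pos h6, abs_two]
    rw [← mul_div_assoc, div_le_iff₀ h6]
    nlinarith
  have key : ∀ T ∈ Ioo (1 / 2 : ℝ) 1, C / 2 * (u T - u (1 / 2)) ≤ J := by
    intro T hT
    have hsub : uIcc (1 / 2 : ℝ) T ⊆ Ioo 0 1 := by
      rw [uIcc_of_le hT.1.le]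
      intro t ht
      exact ⟨by linarith [ht.1], by linarith [ht.2, hT.2]⟩
    have h5 := intervalIntegral.integral_eq_sub_of_hasDerivAt (fun t ht => hu t (hsub ht))
      (hu'c.mono hsub).intervalIntegrable
    rw [← h5, intervalIntegral.integral_of_le hT.1.le, ← integral_const_mul]
    have hsub' : Ioc (1 / 2 : ℝ) T ⊆ Ioo 0 1 := fun t ht =>
      ⟨by linarith [ht.1], by linarith [ht.2, hT.2]⟩
    have h6 : ‖∫ t in Ioc (1 / 2 : ℝ) T, C / 2 * u' t‖ₑ ≤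
        ∫⁻ t in Ioo (0 : ℝ) 1, ENNReal.ofReal (ρ t) := by
      refine (enorm_integral_le_lintegral_enorm _).trans ?_
      refine le_trans ?_ (lintegral_mono_set hsub')
      refine setLIntegral_mono' measurableSet_Ioc fun t ht => ?_
      rw [← ofReal_norm]
      apply ENNReal.ofReal_le_ofReal
      rw [norm_mul, Real.norm_eq_abs, Real.norm_eq_abs, abs_of_pos (by positivity)]
      exact hbound t (hsub' ht)
    have h7 := ENNReal.toReal_mono hfin h6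
    rw [toReal_enorm] at h7
    exact (le_abs_self _).trans h7
  set M : ℝ := 2 * J / C + |u (1 / 2)| + 1 with hM
  have hM0 : 0 < M := by positivity
  have hK := h3 {z : ℂ | ‖z‖ ^ 2 ≤ 1 - Real.exp (-M)} (by
      apply (isCompact_closedBall (0 : ℂ) 1).of_isClosed_subset
        (isClosed_le (by fun_prop) continuous_const)
      intro z hz
      rw [mem_closedBall_zero_iff]
      have h5 : ‖z‖ ^ 2 ≤ 1 - Real.exp (-M) := hz
      nlinarith [Real.exp_pos (-M), norm_nonneg z]) (by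
      intro z hz
      rw [mem_ball_zero_iff]
      have h5 : ‖z‖ ^ 2 ≤ 1 - Real.exp (-M) := hz
      nlinarith [Real.exp_pos (-M), norm_nonneg z])
  obtain ⟨T, hT1, hT2⟩ := (hK.and (Ioo_mem_nhdsLT (show (1 / 2 : ℝ) < 1 by norm_num))).exists
  have h5 := key T hT2
  have h6 : 1 - ‖γ T‖ ^ 2 < Real.exp (-M) := by
    have : ¬ ‖γ T‖ ^ 2 ≤ 1 - Real.exp (-M) := hT1
    linarith [not_le.1 this]
  have h7 : M < u T := by
    have := (Real.log_lt_iff_lt_exp (hpos T ⟨by linarith [hT2.1], hT2.2⟩)).2 h6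
    simp only [u]
    linarith
  have h8 := le_abs_self (u (1 / 2))
  have h9 : C / 2 * (2 * J / C + 1) = J + C / 2 := by field_simp
  nlinarith

theorem sum_sq (x y s v : ℂ) (h : s ^ 2 = x * y) :
    ∑ i : Fin 3, ((![y - x, I * (y + x), 2 * s] i) * v).re ^ 2 = ((‖x‖ + ‖y‖) * ‖v‖) ^ 2 := by
  have h1 : ‖s‖ ^ 2 = ‖x‖ * ‖y‖ := by rw [← norm_pow, h, norm_mul]
  have h2 := congrArg Complex.re h
  have h3 := congrArg Complex.im h
  have hx : ‖x‖ ^ 2 = x.re ^ 2 + x.im ^ 2 := by rw [← normSq_eq_norm_sq, normSq_apply]; ring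
  have hy : ‖y‖ ^ 2 = y.re ^ 2 + y.im ^ 2 := by rw [← normSq_eq_norm_sq, normSq_apply]; ring
  have hs : ‖s‖ ^ 2 = s.re ^ 2 + s.im ^ 2 := by rw [← normSq_eq_norm_sq, normSq_apply]; ring
  have hv : ‖v‖ ^ 2 = v.re ^ 2 + v.im ^ 2 := by rw [← normSq_eq_norm_sq, normSq_apply]; ring
  have h4 : ((‖x‖ + ‖y‖) * ‖v‖) ^ 2 = (‖x‖ ^ 2 + ‖y‖ ^ 2 + 2 * ‖s‖ ^ 2) * ‖v‖ ^ 2 := by
    rw [h1]; ring
  rw [h4, hx, hy, hs, hv]
  simp only [pow_two, mul_re, mul_im] at h2 h3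
  simp [Fin.sum_univ_three]
  linear_combination (2 * (v.re ^ 2 - v.im ^ 2)) * h2 - (4 * v.re * v.im) * h3

theorem sum_orth (x y s : ℂ) (h : s ^ 2 = x * y) :
    ∑ i : Fin 3, ((![y - x, I * (y + x), 2 * s] i) * 1).re *
      ((![y - x, I * (y + x), 2 * s] i) * I).re = 0 := by
  have h3 := congrArg Complex.im h
  simp only [pow_two, mul_im] at h3
  simp [Fin.sum_univ_three]
  linear_combination (-2) * h3

theorem orth_cross (φ : Fin 3 → ℂ) (c : ℝ) :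
    ∑ i : Fin 3, ((c • crossProduct (fun i => (φ i * 1).re) (fun i => (φ i * I).re)) i : ℝ) * φ i
      = 0 := by
  apply Complex.ext <;> simp [Fin.sum_univ_three, crossProduct] <;> ring

theorem cross_sq (a b : Fin 3 → ℝ) : ∑ i, (crossProduct a b i) ^ 2 =
    (∑ i, a i ^ 2) * (∑ i, b i ^ 2) - (∑ i, a i * b i) ^ 2 := by
  simp [Fin.sum_univ_three, crossProduct]
  ring

end Pool.Agent.H50Z.Flat
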